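import Pool.Agent.Helper741.QSym.Final

/-!
# Quantum symmetry of Cartesian products with multiplicities
-/

set_option autoImplicit false
set_option linter.unusedSectionVars false

namespace Pool.Agent.Y345.QP

open Pool.Agent.H741.QS

/-! ### distances -/

theorem dist_map_le {V W : Type} {G : SimpleGraph V} {H : SimpleGraph W} (hG : G.Connected)
    (f : G →g H) (a b : V) : H.dist (f a) (f b) ≤ G.dist a b := by
  obtain ⟨p, hp⟩ := hG.exists_walk_length_eq_dist a b
  calc H.dist (f a) (f b) ≤ (p.map f).length := SimpleGraph.dist_le _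
    _ = G.dist a b := by rw [SimpleGraph.Walk.length_map, hp]

theorem dist_iso {V W : Type} {G : SimpleGraph V} {H : SimpleGraph W} (hG : G.Connected)
    (e : G ≃g H) (a b : V) : G.dist a b = H.dist (e a) (e b) := by
  have hH : H.Connected := e.connected_iff.mp hG
  apply le_antisymm
  · have h := dist_map_le hH e.symm.toHom (e a) (e b)
    have h1 : e.symm.toHom (e a) = a := e.symm_apply_apply a
    have h2 : e.symm.toHom (e b) = b := e.symm_apply_apply b
    rw [h1, h2] at h
    exact h
  · exact dist_map_le hG e.toHom a b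

theorem dist_boxProd {V W : Type} {G : SimpleGraph V} {H : SimpleGraph W} (hG : G.Connected)
    (hH : H.Connected) (x y : V × W) :
    (G □ H).dist x y = G.dist x.1 y.1 + H.dist x.2 y.2 := by
  have h1 : G.edist x.1 y.1 ≠ ⊤ := SimpleGraph.edist_ne_top_iff_reachable.2 (hG.preconnected _ _)
  have h2 : H.edist x.2 y.2 ≠ ⊤ := SimpleGraph.edist_ne_top_iff_reachable.2 (hH.preconnected _ _)
  unfold SimpleGraph.dist
  rw [SimpleGraph.edist_boxProd, ENat.toNat_add h1 h2]

/-- **`K₂` is a prime factor**: if it is a factor of a product of connected graphs, then it is a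
factor of one of them. -/
theorem noK2_boxPi {ι : Type} [Fintype ι] [DecidableEq ι] {P : ι → Type} [∀ i, Fintype (P i)]
    (G : ∀ i, SimpleGraph (P i)) (hG : ∀ i, (G i).Connected) (hK : ∀ i, NoK2 (G i)) :
    NoK2 (boxPi G) := by
  intro W _ Y
  refine ⟨fun e => ?_⟩
  have hZ := boxPi_connected G hG
  have hY : ((⊤ : SimpleGraph Bool) □ Y).Connected := e.connected_iff.mp hZ
  obtain ⟨hB, hY2⟩ := SimpleGraph.connected_boxProd.mp hY
  have hd : ∀ a b, (boxPi G).dist a b =
      (⊤ : SimpleGraph Bool).dist (e a).1 (e b).1 + Y.dist (e a).2 (e b).2 := by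
    intro a b
    rw [dist_iso hZ e, dist_boxProd hB hY2]
  have hadj : ∀ a b, (boxPi G).Adj a b ↔
      ((e a).1 ≠ (e b).1 ∧ (e a).2 = (e b).2 ∨ Y.Adj (e a).2 (e b).2 ∧ (e a).1 = (e b).1) := by
    intro a b
    have h1 : ((⊤ : SimpleGraph Bool) □ Y).Adj (e a) (e b) ↔ (boxPi G).Adj a b := e.map_rel_iff'
    rw [← h1, SimpleGraph.boxProd_adj, SimpleGraph.top_adj]
  have hbad := no_bad G hG hK (fun a b => (e a).1 ≠ (e b).1 ∧ (e a).2 = (e b).2) ?_ ?_ ?_
  · obtain ⟨x0⟩ := hZ.nonempty
    apply hbad x0 (e.symm (!(e x0).1, (e x0).2))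
    have h1 : e (e.symm (!(e x0).1, (e x0).2)) = (!(e x0).1, (e x0).2) := e.apply_symm_apply _
    rw [h1]
    refine ⟨?_, rfl⟩
    cases (e x0).1 <;> simp
  · intro a b h
    exact (hadj a b).2 (Or.inl h)
  · intro a b h
    exact ⟨h.1.symm, h.2.symm⟩
  · rintro a b c ⟨h1, h2⟩ hac hcb
    have hc : Y.Adj (e a).2 (e c).2 ∧ (e a).1 = (e c).1 := by
      rcases (hadj a c).1 hac with h | h
      · exfalso
        apply hcb
        apply e.injective
        apply Prod.ext
        · revert h1
          have := h.1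
          revert this
          cases (e a).1 <;> cases (e b).1 <;> cases (e c).1 <;> simp
        · exact h.2.symm.trans h2
      · exact h
    have h3 : e (e.symm ((e b).1, (e c).2)) = ((e b).1, (e c).2) := e.apply_symm_apply _
    refine ⟨e.symm ((e b).1, (e c).2), ?_, ?_, ?_, ?_⟩
    · rw [hadj, h3]
      refine Or.inr ⟨?_, rfl⟩
      show Y.Adj (e b).2 (e c).2
      rw [← h2]
      exact hc.1
    · rw [hadj, h3]
      refine Or.inl ⟨?_, rfl⟩
      show (e c).1 ≠ (e b).1
      rw [← hc.2]
      exact h1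
    · rw [h3]
      refine ⟨?_, rfl⟩
      show (e c).1 ≠ (e b).1
      rw [← hc.2]
      exact h1
    · intro z
      rw [hd, hd, hd, hd, h3, ← hc.2, ← h2]
      push_cast
      ring

/-! ### factors -/

section
variable {J K : Type} {P : K → Type} (G : ∀ k, SimpleGraph (P k)) (f : J → K)

/-- the restriction to the factors in the range of `f` and to the other ones -/
def res (x : ∀ k, P k) : (∀ j, P (f j)) × (∀ c : {k // k ∉ Set.range f}, P c.1) :=
  (fun j => x (f j), fun c => x c.1)

theorem res_bijective (hf : Function.Injective f) : Function.Bijective (res (P := P) f) := by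
  classical
  constructor
  · intro x y hxy
    funext k
    by_cases hk : k ∈ Set.range f
    · obtain ⟨j, rfl⟩ := hk
      exact congrFun (congrArg Prod.fst hxy) j
    · exact congrFun (congrArg Prod.snd hxy) ⟨k, hk⟩
  · rintro ⟨y, z⟩
    have hex : ∀ k, ∃ v : P k, (∀ j (h : f j = k), h ▸ y j = v) ∧
        (∀ h : k ∉ Set.range f, z ⟨k, h⟩ = v) := by
      intro k
      by_cases hk : k ∈ Set.range f
      · obtain ⟨j, rfl⟩ := hk
        refine ⟨y j, ?_, fun h => (h ⟨j, rfl⟩).elim⟩
        intro j' h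
        have := hf h
        subst this
        rfl
      · exact ⟨z ⟨k, hk⟩, fun j h => (hk ⟨j, h⟩).elim, fun _ => rfl⟩
    choose x hx1 hx2 using hex
    refine ⟨x, Prod.ext ?_ ?_⟩
    · funext j
      exact (hx1 (f j) j rfl).symm
    · funext c
      exact (hx2 c.1 c.2).symm

/-- a product is the product of the factors in the range of `f` and of the other ones -/
noncomputable def resIso (hf : Function.Injective f) : boxPi G ≃g
    ((boxPi fun j => G (f j)) □ (boxPi fun c : {k // k ∉ Set.range f} => G c.1)) where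
  toEquiv := Equiv.ofBijective _ (res_bijective f hf)
  map_rel_iff' := by
    intro x y
    show ((boxPi fun j => G (f j)) □ (boxPi fun c : {k // k ∉ Set.range f} => G c.1)).Adj
      (res f x) (res f y) ↔ (boxPi G).Adj x y
    rw [SimpleGraph.boxProd_adj, boxPi_adj, boxPi_adj, boxPi_adj]
    constructor
    · rintro (⟨⟨j, h1, h2⟩, h3⟩ | ⟨⟨c, h1, h2⟩, h3⟩)
      · refine ⟨f j, h1, fun k hk => ?_⟩
        by_cases hkr : k ∈ Set.range f
        · obtain ⟨j', rfl⟩ := hkr
          exact h2 j' (fun h => hk (by rw [h]))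
        · exact congrFun h3 ⟨k, hkr⟩
      · refine ⟨c.1, h1, fun k hk => ?_⟩
        by_cases hkr : k ∈ Set.range f
        · obtain ⟨j', rfl⟩ := hkr
          exact congrFun h3 j'
        · exact h2 ⟨k, hkr⟩ (fun h => hk (congrArg Subtype.val h))
    · rintro ⟨k, h1, h2⟩
      by_cases hkr : k ∈ Set.range f
      · obtain ⟨j, rfl⟩ := hkr
        refine Or.inl ⟨⟨j, h1, fun j' hj' => h2 (f j') (fun h => hj' (hf h))⟩, ?_⟩
        funext c
        exact h2 c.1 (fun h => c.2 ⟨j, h.symm⟩)
      · refine Or.inr ⟨⟨⟨k, hkr⟩, h1, fun c hc => h2 c.1 (fun h => hc (Subtype.ext h))⟩, ?_⟩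
        funext j
        exact h2 (f j) (fun h => hkr ⟨j, h⟩)

end

/-- `NoQuantumSymmetry` of a product passes to the product of some of the factors -/
theorem noqs_sub {J K : Type} [Fintype J] [Fintype K] [DecidableEq J] [DecidableEq K]
    {P : K → Type} [∀ k, Fintype (P k)] [∀ k, Nonempty (P k)] (G : ∀ k, SimpleGraph (P k))
    (f : J → K) (hf : Function.Injective f) (h : NoQuantumSymmetry (boxPi G)) :
    NoQuantumSymmetry (boxPi fun j => G (f j)) := by
  classical
  exact necessity_self _ _ (noqs_of_iso (resIso G f hf) h)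

/-- the product of one graph -/
def unitIso {V : Type} (X : SimpleGraph V) : (boxPi fun _ : Unit => X) ≃g X where
  toEquiv := Equiv.funUnique Unit V
  map_rel_iff' := by
    intro a b
    rw [boxPi_adj]
    constructor
    · intro h
      exact ⟨(), h, fun j hj => absurd rfl hj⟩
    · rintro ⟨_, h, _⟩
      exact h

theorem connected_factor {ι : Type} {P : ι → Type}
    (G : ∀ i, SimpleGraph (P i)) (h : (boxPi G).Connected) (i : ι) : (G i).Connected := by
  have h1 := (resIso G (fun _ : Unit => i) (fun _ _ _ => rfl)).connected_iff.mp h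
  exact (unitIso (G i)).connected_iff.mp (SimpleGraph.connected_boxProd.mp h1).1

theorem noK2_factor {ι : Type} [Fintype ι] [DecidableEq ι] {P : ι → Type} [∀ i, Fintype (P i)]
    (G : ∀ i, SimpleGraph (P i)) (h : NoK2 (boxPi G)) (i : ι) : NoK2 (G i) := by
  classical
  have h1 : NoK2 (boxPi fun _ : Unit => G i) :=
    noK2_left h (resIso G (fun _ : Unit => i) (fun _ _ _ => rfl))
  intro W _ Y
  exact ⟨fun e => (h1 W Y).false ((unitIso (G i)).trans e)⟩

/-! ### powers -/

/-- arbitrarily high powers -/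
theorem noqs_high {ι : Type} [Fintype ι] [DecidableEq ι] {P : ι → Type} [∀ i, Fintype (P i)]
    [∀ i, Nonempty (P i)] (X : ∀ i, SimpleGraph (P i)) (h1 : ∀ i, (X i).Connected)
    (h2 : NoQuantumSymmetry (boxPi X)) (h3 : ∀ i, NoK2 (X i)) (m : ℕ) :
    ∃ (B : Type) (_ : Fintype B) (_ : DecidableEq B), m < Fintype.card B ∧
      NoQuantumSymmetry (boxPi fun k : ι × B => X k.1) := by
  classical
  induction m with
  | zero =>
    refine ⟨Unit, inferInstance, inferInstance, by simp, ?_⟩
    exact noqs_sub X (fun k : ι × Unit => k.1) (fun a b h => Prod.ext h rfl) h2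
  | succ m ih =>
    obtain ⟨B, iB, dB, hB, hq⟩ := ih
    refine ⟨B × Bool, inferInstance, inferInstance, by
      rw [Fintype.card_prod, Fintype.card_bool]; omega, ?_⟩
    let G' : ∀ k : ι × B, SimpleGraph (P k.1) := fun k => X k.1
    have hsq : NoQuantumSymmetry (boxPi G' □ boxPi G') :=
      (main (boxPi G')).2 ⟨boxPi_connected G' (fun k => h1 k.1), hq,
        noK2_boxPi G' (fun k => h1 k.1) (fun k => h3 k.1)⟩
    obtain ⟨e, -⟩ := boxPi_square G'
    have h4 := noqs_of_iso e hsq
    exact noqs_sub (fun k : (ι × B) × Bool => G' k.1)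
      (fun k : ι × (B × Bool) => ((k.1, k.2.1), k.2.2)) (by
        rintro ⟨a, b, c⟩ ⟨a', b', c'⟩ h
        simp only [Prod.mk.injEq] at h ⊢
        exact ⟨h.1.1, h.1.2, h.2⟩) h4

/-- all multiplicities -/
theorem noqs_mult {ι : Type} [Fintype ι] [DecidableEq ι] {P : ι → Type} [∀ i, Fintype (P i)]
    [∀ i, Nonempty (P i)] (X : ∀ i, SimpleGraph (P i)) (h1 : ∀ i, (X i).Connected)
    (h2 : NoQuantumSymmetry (boxPi X)) (h3 : ∀ i, NoK2 (X i)) (a : ι → ℕ) :
    NoQuantumSymmetry (boxPi fun k : (i : ι) × Fin (a i) => X k.1) := by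
  classical
  obtain ⟨B, iB, dB, hB, hq⟩ := noqs_high X h1 h2 h3 (∑ i, a i)
  have hle : ∀ i, a i ≤ Fintype.card B := fun i =>
    (Finset.single_le_sum (fun _ _ => Nat.zero_le _) (Finset.mem_univ i)).trans hB.le
  let g : ∀ i, Fin (a i) → B := fun i t => (Fintype.equivFin B).symm (Fin.castLE (hle i) t)
  have hg : ∀ i, Function.Injective (g i) := by
    intro i s t h
    exact Fin.castLE_injective _ ((Fintype.equivFin B).symm.injective h)
  exact noqs_sub (fun k : ι × B => X k.1)
    (fun k : (i : ι) × Fin (a i) => (k.1, g k.1 k.2)) (by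
      rintro ⟨i, s⟩ ⟨j, t⟩ h
      simp only [Prod.mk.injEq] at h
      obtain ⟨h1, h2⟩ := h
      subst h1
      rw [hg i h2]) hq

/-- **Products with multiplicities at least two.** -/
theorem mult_iff {ι : Type} [Fintype ι] [DecidableEq ι] {P : ι → Type} [∀ i, Fintype (P i)]
    [∀ i, Nonempty (P i)] (X : ∀ i, SimpleGraph (P i)) (a : ι → ℕ) (ha : ∀ i, 2 ≤ a i) :
    NoQuantumSymmetry (boxPi fun k : (i : ι) × Fin (a i) => X k.1) ↔
      (∀ i, (X i).Connected) ∧ NoQuantumSymmetry (boxPi X) ∧ ∀ i, NoK2 (X i) := by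
  classical
  constructor
  · intro h
    have h1 : NoQuantumSymmetry (boxPi fun k : ι × Bool => X k.1) :=
      noqs_sub (fun k : (i : ι) × Fin (a i) => X k.1)
        (fun k : ι × Bool => ⟨k.1, if k.2 then ⟨1, by have := ha k.1; omega⟩
          else ⟨0, by have := ha k.1; omega⟩⟩) (by
        rintro ⟨i, b⟩ ⟨j, c⟩ h
        have hij : i = j := congrArg Sigma.fst h
        subst hij
        simp only [Sigma.mk.injEq, heq_eq_eq, true_and] at h
        cases b <;> cases c <;> simp at h ⊢) h
    obtain ⟨e, -⟩ := boxPi_square X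
    have h2 : NoQuantumSymmetry (boxPi X □ boxPi X) := noqs_of_iso e.symm h1
    obtain ⟨h3, h4, h5⟩ := (main (boxPi X)).1 h2
    exact ⟨connected_factor X h3, h4, noK2_factor X h5⟩
  · rintro ⟨h1, h2, h3⟩
    exact noqs_mult X h1 h2 h3 a

end Pool.Agent.Y345.QP
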